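import Pool.Graph.R_pool_sql_team_seeded_2aa45f1a.Q282.UK.Defs

/-!
# The crystalline Tate conjecture for Chow motives
-/

set_option autoImplicit false

open CategoryTheory Limits AlgebraicGeometry Pool.Agent.Y116.UV Pool.Agent.Q282.UM
  Pool.Agent.Q282.UK

namespace Pool.Agent.Helper24.CT

universe v u

/-- The category `C` of Chow motives over the finite field `k` with rational coefficients, with the
motives `h(X)`, the Tate twists and the weight complexes (`Weights`), and with

* `cyc M`: the space `CH^0(M) ⊗ K`, so that `cyc (h(X)(i)) = CH^i(X) ⊗ K`;
* `fixed M`: the space of the classes in the crystalline cohomology of `M` in degree zero (with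
  coefficients in the fraction field `K` of the ring of Witt vectors) which are fixed by the `K`-linear
  Frobenius; for `M = h(X)(i)` it is the space of the `x` in `H^(2i)(X)` with `Fr x = q^i x`;
* `cl`: the cycle class map. -/
structure Crystals (k : Type) [Field k] (K : Type) [Field K] (C : Type u) [Category.{v} C]
    [Preadditive C] extends Weights k C where
  cyc : C ⥤ ModuleCat.{0} K
  fixed : C ⥤ ModuleCat.{0} K
  fixed_additive : fixed.Additive
  cl : cyc ⟶ fixed

variable {k : Type} [Field k] {K : Type} [Field K] {C : Type u} [Category.{v} C] [Preadditive C]

/-- The crystalline Tate conjecture for `M`: every fixed cohomology class of degree zero is the class of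
a cycle (with coefficients in `K`). -/
def Tate (D : Crystals k K C) (M : C) : Prop :=
  ∀ x : D.fixed.obj M, ∃ z : D.cyc.obj M, (D.cl.app M).hom z = x

/-- The crystalline Tate conjecture for the smooth projective scheme `X` over `k`, in all codimensions
`i`: the cycle class map `CH^i(X) ⊗ K → H^(2i)(X)(i)^Fr` is surjective. -/
def TateFor (D : Crystals k K C) (X : Sch k) : Prop :=
  ∀ i : ℤ, Tate D ((D.tw i).obj (D.h X))

/-- The functor of the missing classes: the fixed cohomology classes of degree zero modulo the classes
of cycles. -/
noncomputable def Missing (D : Crystals k K C) : C ⥤ ModuleCat.{0} K := cokernel D.cl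

/-- The classes of the fixed cohomology classes of degree zero modulo the classes of cycles. -/
noncomputable def toMissing (D : Crystals k K C) : D.fixed ⟶ Missing D := cokernel.π D.cl

lemma missing_add (D : Crystals k K C) {M N : C} (f g : M ⟶ N) :
    (Missing D).map (f + g) = (Missing D).map f + (Missing D).map g := by
  have := D.fixed_additive
  have h0 : Epi (cokernel.π D.cl) := inferInstance
  have h1 : Epi ((toMissing D).app M) := by
    change Epi ((cokernel.π D.cl).app M)
    infer_instance
  have h2 : ∀ h : M ⟶ N, (toMissing D).app M ≫ (Missing D).map h =
      D.fixed.map h ≫ (toMissing D).app N := fun h => ((toMissing D).naturality h).symm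
  refine (cancel_epi ((toMissing D).app M)).mp ?_
  rw [Preadditive.comp_add, h2, h2, h2, D.fixed.map_add, Preadditive.add_comp]

instance (D : Crystals k K C) : (Missing D).Additive := ⟨missing_add D _ _⟩

/-- The complexes of the missing classes of all twists `W(Y)(n)` of the weight complex of the scheme `Y`
are acyclic. -/
def AcyclicFor (D : Crystals k K C) (Y : Sch k) : Prop :=
  ∀ n j : ℤ, IsZero ((HomotopyCategory.homologyFunctor (ModuleCat.{0} K) (ComplexShape.up ℤ) j).obj
    (onHK (Missing D) (onHK (D.tw n) (D.W Y))))

end Pool.Agent.Helper24.CT
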