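import Pool.Agent.Helper24.CT.Defs
import Pool.Graph.R_pool_sql_team_seeded_2aa45f1a.Q282.UK.Inst
import Pool.Graph.R_pool_sql_team_seeded_1acbe0a2.Y101.Th.Gen

/-!
# The crystalline Tate conjecture and cubic hypersurfaces
-/

set_option autoImplicit false

open CategoryTheory Limits AlgebraicGeometry Pool.Agent.Y116.UV Pool.Agent.Z125.UN
  Pool.Agent.Q282.UM Pool.Agent.Q282.UK Pool.Agent.Y101.Th

namespace Pool.Agent.Helper24.CT

universe v u

variable {k : Type} [Field k] {K : Type} [Field K] {C : Type u} [Category.{v} C] [Preadditive C]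

lemma tate_iff (D : Crystals k K C) (M : C) : Tate D M ↔ IsZero ((Missing D).obj M) := by
  have h0 : Tate D M ↔ Epi (D.cl.app M) := (ModuleCat.epi_iff_surjective _).symm
  have e : cokernel (D.cl.app M) ≅ (Missing D).obj M :=
    (PreservesCokernel.iso ((evaluation C (ModuleCat.{0} K)).obj M) D.cl).symm
  rw [h0, ← e.isZero_iff]
  constructor
  · intro h
    exact isZero_cokernel_of_epi _
  · intro h
    exact Preadditive.epi_of_isZero_cokernel _ h

variable [HasZeroObject C] [HasBinaryBiproducts C]

omit [HasZeroObject C] [HasBinaryBiproducts C] in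
lemma coh_hom (F : C ⥤ ModuleCat.{0} K) [F.Additive] (n : ℤ) (L : HK C) :
    Nonempty (coh F n L ≅ (HomotopyCategory.homologyFunctor (ModuleCat.{0} K)
      (ComplexShape.up ℤ) n).obj (onHK F L)) := by
  have e1 : onHK F (L⟦n⟧) ≅ (onHK F L)⟦n⟧ :=
    ((F.mapHomotopyCategory (ComplexShape.up ℤ)).commShiftIso n).app L
  exact ⟨(HomotopyCategory.homologyFunctor (ModuleCat.{0} K) (ComplexShape.up ℤ) 0).mapIso e1 ≪≫
    ((HomotopyCategory.homologyFunctor (ModuleCat.{0} K) (ComplexShape.up ℤ) 0).isoShift n).app
      (onHK F L)⟩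

variable [HasFiniteBiproducts C]

/-- The property of the complexes. -/
def Ac (D : Crystals k K C) (L : HK C) : Prop :=
  CohIn (Missing D) (IsZero (C := ModuleCat.{0} K)) L

omit [HasFiniteBiproducts C] in
lemma acyclic_iff (D : Crystals k K C) (Y : Sch k) :
    AcyclicFor D Y ↔ AllTwists D.toWeights (Ac D) Y := by
  refine forall_congr' fun n => forall_congr' fun j => ?_
  obtain ⟨e⟩ := coh_hom (Missing D) j (onHK (D.tw n) (D.W Y))
  exact e.symm.isZero_iff

lemma ext_ac (D : Crystals k K C) : IsExtension (Tate D) (Ac D) := by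
  have h1 : Tate D = fun M : C => IsZero ((Missing D).obj M) := funext fun M =>
    propext (tate_iff D M)
  rw [h1]
  exact ext_serre (Missing D) (IsZero (C := ModuleCat.{0} K))

variable [PerfectField k] {D : Crystals k K C} (hD : IsWeights D.toWeights)

include hD

theorem blocks (N : ℕ) :
    (∀ X : Sch k, IsSmoothProjective X → topologicalKrullDim X.left ≤ N → TateFor D X) ↔
      ∀ (a b c : ℕ) (T : Fin a → Fin b → Fin c → k), (a ≤ N + 2 ∨ b ≤ N + 2 ∨ c ≤ N + 2) →
        AcyclicFor D (hypS T) := by
  simp only [acyclic_iff]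
  exact forms_dim hD (ext_ac D) N

/-- Prime fields. -/
theorem graphs (hk : Function.Surjective (Int.cast : ℤ → k)) (N : ℕ) :
    (∀ X : Sch k, IsSmoothProjective X → topologicalKrullDim X.left ≤ N → TateFor D X) ↔
      ∀ (a b c : ℕ) (E : Finset (Fin a × Fin b × Fin c)), c ≤ N + 2 →
        AcyclicFor D (tripS k E) := by
  classical
  constructor
  · intro h a b c E hc
    have h1 := (blocks hD N).mp h a b c (fun i j l => if (i, j, l) ∈ E then (1 : k) else 0)
      (Or.inr (Or.inr hc))
    have h3 : hypS (fun i j l => if (i, j, l) ∈ E then (1 : k) else 0) = tripS k E := by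
      unfold hypS tripS Hyp Trip
      rw [tri_ind]
    rwa [h3] at h1
  · intro h X hX hN
    simp only [acyclic_iff] at h
    have hp : AllTwists D.toWeights (Ac D) (aff k k) := by
      refine all_point hD (ext_ac D) ?_
      have h1 := h 1 1 1 Finset.univ (by omega)
      have h3 : hypS (one3 k) = tripS k (Finset.univ : Finset (Fin 1 × Fin 1 × Fin 1)) := by
        have h4 : one3 k = fun i j l => if (i, j, l) ∈
            (Finset.univ : Finset (Fin 1 × Fin 1 × Fin 1)) then (1 : k) else 0 := by
          funext i j l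
          simp [one3]
        rw [h4]
        unfold hypS tripS Hyp Trip
        rw [tri_ind]
      rw [h3]
      exact h1
    have hB := bnd_all hD (ext_ac D) hp
    have h4 := (gen_prime hk hB N).mpr (fun a b E => h a b (N + 2) E le_rfl) X (ft_projective hX) hN
    intro n
    exact of_inZero (ext_ac D) (hD.projective X hX) (h4 n)

end Pool.Agent.Helper24.CT
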